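import Pool.Agent.H65.CRZ.TN
import Pool.Agent.H60.SZ.YS
import Pool.Agent.H61.GLH.FELow

/-!
# Row G1 of the board `crz_modules`: quotients of values of the Gamma function
-/

set_option autoImplicit false

open Complex MeasureTheory Set Filter Topology

namespace Pool.Agent.H38.CRZ

open Pool.Agent.H65.CRZ
open Pool.Agent.H60.SZ (cg cg_pos gamma_bound)
open Pool.Agent.H23.GLH (norm_sin_le)
open Pool.Agent.H61.GLH (norm_sin_sq)

/-- an upper bound in each vertical strip -/
theorem gamma_up (n : ℕ) : ∃ C : ℝ, 0 < C ∧ ∃ B : ℕ, ∀ x v : ℝ, 1 / 8 ≤ x → x ≤ n + 2 →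
    ‖Complex.Gamma (x + v * I)‖ ≤ C * (1 + |v|) ^ B * Real.exp (-(Real.pi * |v| / 2)) := by
  induction n with
  | zero =>
    refine ⟨9 * cg, by have := cg_pos; positivity, 2, fun x v h1 h2 => ?_⟩
    have hv : 0 ≤ |v| := abs_nonneg v
    have h3 := gamma_bound x v h1 (by simpa using h2)
    refine h3.trans ?_
    have h4 : (1 + |v|) ^ (x - 1 / 2) ≤ (1 + |v|) ^ 2 := by
      have h5 := Real.rpow_le_rpow_of_exponent_le (x := 1 + |v|) (by linarith)
        (show x - 1 / 2 ≤ (2 : ℕ) by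
          push_cast
          have : x ≤ 2 := by simpa using h2
          linarith)
      rwa [Real.rpow_natCast] at h5
    have := cg_pos
    gcongr
  | succ n ih =>
    obtain ⟨C, hC, B, hB⟩ := ih
    refine ⟨C * (n + 3), by positivity, B + 1, fun x v h1 h2 => ?_⟩
    have hv : 0 ≤ |v| := abs_nonneg v
    have hn : (0 : ℝ) ≤ n := Nat.cast_nonneg n
    have hE := Real.exp_pos (-(Real.pi * |v| / 2))
    rcases le_or_gt x (n + 2) with hx | hx
    · refine (hB x v h1 hx).trans ?_
      have e1 : (1 + |v|) ^ B ≤ (1 + |v|) ^ (B + 1) :=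
        pow_le_pow_right₀ (by linarith) (Nat.le_succ B)
      have e2 : C ≤ C * (n + 3) := by nlinarith
      gcongr
    · have hx1 : 1 < x := by linarith
      have hs : (((x - 1 : ℝ) : ℂ) + v * I) ≠ 0 := by
        intro h
        have := congrArg Complex.re h
        simp at this
        linarith
      have h4 : Complex.Gamma ((x : ℂ) + v * I) =
          (((x - 1 : ℝ) : ℂ) + v * I) * Complex.Gamma (((x - 1 : ℝ) : ℂ) + v * I) := by
        rw [← Complex.Gamma_add_one _ hs]
        congr 1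
        push_cast
        ring
      rw [h4, norm_mul]
      push_cast at h2
      have h5 : ‖(((x - 1 : ℝ) : ℂ) + v * I)‖ ≤ (n + 3) * (1 + |v|) := by
        refine (norm_add_le _ _).trans ?_
        rw [norm_mul, Complex.norm_I, mul_one, Complex.norm_real, Complex.norm_real,
          Real.norm_eq_abs, Real.norm_eq_abs, abs_of_pos (by linarith : (0 : ℝ) < x - 1)]
        nlinarith
      have h6 := hB (x - 1) v (by linarith) (by linarith)
      calc ‖(((x - 1 : ℝ) : ℂ) + v * I)‖ * ‖Complex.Gamma (((x - 1 : ℝ) : ℂ) + v * I)‖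
          ≤ ((n + 3) * (1 + |v|)) *
            (C * (1 + |v|) ^ B * Real.exp (-(Real.pi * |v| / 2))) := by gcongr
        _ = _ := by ring

/-- a lower bound near the critical line -/
theorem gamma_low (s : ℂ) (h1 : 1 / 4 ≤ s.re) (h2 : s.re ≤ 3 / 4) :
    Real.exp (-(Real.pi * |s.im| / 2)) ≤ 9 * cg * (1 + |s.im|) * ‖Complex.Gamma s‖ := by
  have hπ := Real.pi_pos
  have hπ3 := Real.pi_gt_three
  have hG := cg_pos
  have ht := abs_nonneg s.im
  have hn := norm_nonneg (Complex.Gamma s)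
  have hE : 0 < Real.exp (-(Real.pi * |s.im| / 2)) := Real.exp_pos _
  have hΓ : ‖Complex.Gamma (1 - s)‖ ≤
      9 * cg * (1 + |s.im|) * Real.exp (-(Real.pi * |s.im| / 2)) := by
    have h3 := gamma_bound (1 - s.re) (-s.im) (by linarith) (by linarith)
    have e : (((1 - s.re : ℝ) : ℂ) + ((-s.im : ℝ) : ℂ) * Complex.I) = 1 - s := by
      apply Complex.ext <;> simp
    rw [e, abs_neg] at h3
    have h4 : (1 + |s.im|) ^ (1 - s.re - 1 / 2) ≤ 1 + |s.im| := by
      have h5 := Real.rpow_le_rpow_of_exponent_le (x := 1 + |s.im|) (by linarith)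
        (show 1 - s.re - 1 / 2 ≤ 1 by linarith)
      rwa [Real.rpow_one] at h5
    refine h3.trans ?_
    gcongr
  have hrefl := Complex.Gamma_mul_Gamma_one_sub s
  have hsin : ‖Complex.sin (Real.pi * s)‖ ≤ Real.exp (Real.pi * |s.im|) := by
    refine (norm_sin_le _).trans (le_of_eq ?_)
    rw [Complex.im_ofReal_mul, abs_mul, abs_of_pos hπ]
  have hsin0 : Complex.sin (Real.pi * s) ≠ 0 := by
    intro h0
    have h3 := norm_sin_sq (Real.pi * s)
    rw [h0, norm_zero, Complex.re_ofReal_mul, Complex.im_ofReal_mul] at h3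
    have h4 : 0 < Real.sin (Real.pi * s.re) := by
      apply Real.sin_pos_of_pos_of_lt_pi
      · apply mul_pos hπ; linarith
      · nlinarith
    have h5 : 0 < Real.sin (Real.pi * s.re) ^ 2 := by positivity
    have h6 := sq_nonneg (Real.sinh (Real.pi * s.im))
    norm_num at h3
    linarith
  have h3 : ‖Complex.Gamma s‖ * ‖Complex.Gamma (1 - s)‖ * ‖Complex.sin (Real.pi * s)‖ =
      Real.pi := by
    rw [← norm_mul, hrefl, norm_div, Complex.norm_real, Real.norm_of_nonneg hπ.le,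
      div_mul_cancel₀]
    exact norm_ne_zero_iff.mpr hsin0
  have h4 : Real.pi ≤ ‖Complex.Gamma s‖ * (9 * cg * (1 + |s.im|) *
      Real.exp (Real.pi * |s.im| / 2)) := by
    calc Real.pi = ‖Complex.Gamma s‖ * ‖Complex.Gamma (1 - s)‖ *
          ‖Complex.sin (Real.pi * s)‖ := h3.symm
      _ ≤ ‖Complex.Gamma s‖ * (9 * cg * (1 + |s.im|) * Real.exp (-(Real.pi * |s.im| / 2))) *
          Real.exp (Real.pi * |s.im|) := by gcongr
      _ = ‖Complex.Gamma s‖ * (9 * cg * (1 + |s.im|) *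
          (Real.exp (-(Real.pi * |s.im| / 2)) * Real.exp (Real.pi * |s.im|))) := by ring
      _ = _ := by
          rw [← Real.exp_add]
          congr 3; ring
  have h5 : Real.exp (-(Real.pi * |s.im| / 2)) * Real.exp (Real.pi * |s.im| / 2) = 1 := by
    rw [← Real.exp_add]
    have : -(Real.pi * |s.im| / 2) + Real.pi * |s.im| / 2 = 0 := by ring
    rw [this, Real.exp_zero]
  have h6 : Real.pi * Real.exp (-(Real.pi * |s.im| / 2)) ≤
      9 * cg * (1 + |s.im|) * ‖Complex.Gamma s‖ := by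
    calc Real.pi * Real.exp (-(Real.pi * |s.im| / 2))
        ≤ ‖Complex.Gamma s‖ * (9 * cg * (1 + |s.im|) * Real.exp (Real.pi * |s.im| / 2)) *
          Real.exp (-(Real.pi * |s.im| / 2)) := by gcongr
      _ = 9 * cg * (1 + |s.im|) * ‖Complex.Gamma s‖ *
          (Real.exp (-(Real.pi * |s.im| / 2)) * Real.exp (Real.pi * |s.im| / 2)) := by ring
      _ = _ := by rw [h5, mul_one]
  nlinarith

/-- polynomials and exponentials -/
theorem pow_le_exp (n : ℕ) (x : ℝ) (hx : 0 ≤ x) :
    (1 + x) ^ n ≤ (n.factorial : ℝ) * (5 / 2) ^ n * Real.exp 1 * Real.exp (2 / 5 * x) := by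
  have h1 := Real.pow_div_factorial_le_exp (2 / 5 * (1 + x)) (by positivity) n
  have hf : (0 : ℝ) < (n.factorial : ℝ) := by exact_mod_cast n.factorial_pos
  rw [div_le_iff₀ hf] at h1
  have h2 : Real.exp (2 / 5 * (1 + x)) ≤ Real.exp 1 * Real.exp (2 / 5 * x) := by
    rw [← Real.exp_add]
    apply Real.exp_le_exp.2
    linarith
  have h3 : (1 + x) ^ n = (5 / 2) ^ n * (2 / 5 * (1 + x)) ^ n := by
    rw [← mul_pow]
    congr 1
    ring
  rw [h3]
  calc (5 / 2) ^ n * (2 / 5 * (1 + x)) ^ n ≤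
        (5 / 2) ^ n * (Real.exp 1 * Real.exp (2 / 5 * x) * n.factorial) := by
        refine mul_le_mul_of_nonneg_left (h1.trans ?_) (by positivity)
        gcongr
    _ = _ := by ring

theorem pf_G1 : T_G1 := by
  intro b
  obtain ⟨n, hn⟩ := exists_nat_ge b
  obtain ⟨C, hC, B, hB⟩ := gamma_up n
  have hcg := cg_pos
  set K : ℝ := (B.factorial : ℝ) * (5 / 2) ^ B * Real.exp 1 with hK
  have hK0 : 0 < K := by
    have : (0 : ℝ) < (B.factorial : ℝ) := by exact_mod_cast B.factorial_pos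
    have := Real.exp_pos 1
    positivity
  refine ⟨C * K * (9 * cg), ((B + 1 : ℕ) : ℝ), by positivity, Nat.cast_nonneg _, ?_⟩
  intro s w h1 h2 h3 h4
  have hu := abs_nonneg s.im
  have ht := abs_nonneg w.im
  have hpi := Real.pi_pos
  have hpi2 := Real.pi_lt_d2
  have e1 : s + w = (((s.re + w.re : ℝ) : ℂ) + ((s.im + w.im : ℝ) : ℂ) * I) := by
    apply Complex.ext <;> simp
  have h5 := hB (s.re + w.re) (s.im + w.im) (by linarith) (by linarith)
  rw [← e1] at h5
  have h6 : (1 + |s.im + w.im|) ^ B ≤ (1 + |s.im|) ^ B * (1 + |w.im|) ^ B := by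
    rw [← mul_pow]
    refine pow_le_pow_left₀ (by positivity) ?_ B
    have := abs_add_le s.im w.im
    nlinarith
  have h7 : Real.exp (-(Real.pi * |s.im + w.im| / 2)) ≤
      Real.exp (-(Real.pi * |s.im| / 2)) * Real.exp (8 / 5 * |w.im|) := by
    rw [← Real.exp_add]
    apply Real.exp_le_exp.2
    have h8 : |s.im| ≤ |s.im + w.im| + |w.im| := by
      have := abs_sub (s.im + w.im) w.im
      simpa using this
    have h9 : Real.pi * |s.im| ≤ Real.pi * (|s.im + w.im| + |w.im|) :=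
      mul_le_mul_of_nonneg_left h8 hpi.le
    have h10 : Real.pi * |w.im| ≤ 3.15 * |w.im| := mul_le_mul_of_nonneg_right hpi2.le ht
    linarith
  have h8 := pow_le_exp B |w.im| ht
  have h9 := gamma_low s h1 h2
  have h10 : Real.exp (2 / 5 * |w.im|) * Real.exp (8 / 5 * |w.im|) = Real.exp (2 * |w.im|) := by
    rw [← Real.exp_add]
    congr 1
    ring
  rw [Real.rpow_natCast]
  calc ‖Complex.Gamma (s + w)‖ ≤
        C * (1 + |s.im + w.im|) ^ B * Real.exp (-(Real.pi * |s.im + w.im| / 2)) := h5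
    _ ≤ C * ((1 + |s.im|) ^ B * (1 + |w.im|) ^ B) *
        (Real.exp (-(Real.pi * |s.im| / 2)) * Real.exp (8 / 5 * |w.im|)) := by gcongr
    _ ≤ C * ((1 + |s.im|) ^ B * (K * Real.exp (2 / 5 * |w.im|))) *
        ((9 * cg * (1 + |s.im|) * ‖Complex.Gamma s‖) * Real.exp (8 / 5 * |w.im|)) := by gcongr
    _ = C * K * (9 * cg) * (1 + |s.im|) ^ (B + 1) *
        (Real.exp (2 / 5 * |w.im|) * Real.exp (8 / 5 * |w.im|)) * ‖Complex.Gamma s‖ := by ring
    _ = _ := by rw [h10]

end Pool.Agent.H38.CRZ
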